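import Mathlib

set_option autoImplicit false

/-!
# Reductions from the clique problem to short CNFs, computed with strong monotone gates: definitions
-/

namespace Pool.Agent.R617.M1R

open Finset

/-- The pairs of vertices of a graph with the vertices `0, ..., n - 1`. -/
abbrev Pair (n : ℕ) : Type := {e : Finset (Fin n) // e.card = 2}

/-- The graph with the edges `e` for which `x e = true`. -/
def graph {n : ℕ} (x : Pair n → Bool) : SimpleGraph (Fin n) :=
  SimpleGraph.fromRel fun a b => ∃ h : a ≠ b, x ⟨{a, b}, card_pair h⟩ = true

/-- The clauses with at most `d` literals over `v` variables; `(i, true)` is the `i`-th variable and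
`(i, false)` its negation. -/
abbrev Clause (v d : ℕ) : Type := {c : Finset (Fin v × Bool) // c.card ≤ d}

/-- Some assignment of the variables satisfies all clauses of `φ`. -/
def Sat {v d : ℕ} (φ : Set (Clause v d)) : Prop :=
  ∃ a : Fin v → Bool, ∀ c ∈ φ, ∃ l ∈ c.1, a l.1 = l.2

/-- Each threshold function `z ↦ (θ ≤ φ z)` of the real gate `φ` is computed by a monotone span
program with `m` rows over some field: the row `l` is a vector `v l`, which is available if the
input number `j l` is at least `τ l`, and `θ ≤ φ z` holds exactly if the target `t` is a linear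
combination of the available vectors. The field and the program may depend on `θ`. -/
def SpanGate (m : ℕ) {k : ℕ} (φ : (Fin k → ℝ) → ℝ) : Prop :=
  ∀ θ : ℝ, ∃ (K : Type) (_ : Field K) (E : Type) (_ : AddCommGroup E) (_ : Module K E)
    (j : Fin m → Fin k) (τ : Fin m → ℝ) (v : Fin m → E) (t : E),
    ∀ z, θ ≤ φ z ↔ t ∈ Submodule.span K {x | ∃ l, τ l ≤ z (j l) ∧ x = v l}

/-- Each threshold `θ ≤ φ z` of the real gate `φ` is decided by a convex program with `m` rows in
`m` blocks of `D` variables. The block `u` ranges over a compact convex set `K u` in the cube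
`[-1, 1] ^ D`, the row `i` says that the linear form `A i` is at most `c i`, and this right side is
increased by `r i` if the input number `j i` of the gate is at least `τ i`. If `θ ≤ φ z` then the
program is feasible, and otherwise it is infeasible even with the tolerance `1 / m` in each row. -/
def ProgramGate (m D : ℕ) {k : ℕ} (φ : (Fin k → ℝ) → ℝ) : Prop :=
  ∀ θ : ℝ, ∃ (K : Fin m → Set (Fin D → ℝ)) (A : Fin m → Fin m → Fin D → ℝ) (c r : Fin m → ℝ)
    (j : Fin m → Fin k) (τ : Fin m → ℝ),
    (∀ u, Convex ℝ (K u) ∧ IsCompact (K u) ∧ ∀ x ∈ K u, ∀ d, |x d| ≤ 1) ∧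
    (∀ i u d, |A i u d| ≤ 1) ∧ (∀ i, |c i| ≤ 1 ∧ 0 ≤ r i ∧ r i ≤ 1) ∧
    (∀ z, θ ≤ φ z → ∃ v : Fin m → Fin D → ℝ, (∀ u, v u ∈ K u) ∧
      ∀ i, ∑ u, ∑ d, A i u d * v u d ≤ c i + if τ i ≤ z (j i) then r i else 0) ∧
    ∀ z, φ z < θ → ¬ ∃ v : Fin m → Fin D → ℝ, (∀ u, v u ∈ K u) ∧
      ∀ i, ∑ u, ∑ d, A i u d * v u d ≤ c i + 1 / m + if τ i ≤ z (j i) then r i else 0

/-- A truth-table reduction, with `q` questions, from a problem on graphs with `n` vertices to the
satisfiability of formulas with `v` variables and with clauses of at most `d` literals. It is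
computed by a circuit with the gates `0, ..., s - 1`, which computes with real numbers. Gate `i` has
`w i` inputs, namely `a i j`, each a pair of vertices (with the value `1` for an edge and `0`
otherwise) or an earlier gate, and its value for the graph of `x` is `val x i`. The gates outside `T`
compute arbitrary nondecreasing functions of at most `b` real numbers, or are span gates or program
gates (with any number of inputs). The value of a gate `i` in `T` depends in an arbitrary way on the
bits that tell whether `θ i j` is at most the `j`-th input (a NOT gate, for instance). The clause `c`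
belongs to the `i`-th formula if the value of `out i c` is at least `τ i c`. The answer is an
arbitrary function `ev` of the set of the satisfiable formulas. -/
structure Reduction (n b m D v d q : ℕ) where
  s : ℕ
  T : Finset (Fin s)
  w : Fin s → ℕ
  a : (i : Fin s) → Fin (w i) → Pair n ⊕ Fin s
  op : (i : Fin s) → (Fin (w i) → ℝ) → ℝ
  θ : (i : Fin s) → Fin (w i) → ℝ
  val : (Pair n → Bool) → Fin s → ℝ
  out : Fin q → Clause v d → Pair n ⊕ Fin s
  τ : Fin q → Clause v d → ℝ
  ev : Set (Fin q) → Prop
  earlier : ∀ i j k, a i j = Sum.inr k → k < i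
  mono : ∀ i ∉ T, (w i ≤ b ∧ Monotone (op i)) ∨ SpanGate m (op i) ∨ ProgramGate m D (op i)
  free : ∀ i ∈ T, ∀ z z' : Fin (w i) → ℝ, (∀ j, θ i j ≤ z j ↔ θ i j ≤ z' j) → op i z = op i z'
  spec : ∀ x i, val x i = op i (fun j =>
    Sum.elim (fun e => if x e = true then (1 : ℝ) else 0) (val x) (a i j))

variable {n b m D v d q : ℕ}

/-- The value of an input or of a gate for the graph of `x`. -/
noncomputable def Reduction.value (R : Reduction n b m D v d q) (x : Pair n → Bool) :
    Pair n ⊕ Fin R.s → ℝ :=
  Sum.elim (fun e => if x e = true then (1 : ℝ) else 0) (R.val x)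

/-- The `i`-th formula that the reduction produces for the graph of `x`. -/
def Reduction.formula (R : Reduction n b m D v d q) (x : Pair n → Bool) (i : Fin q) :
    Set (Clause v d) :=
  {c | R.τ i c ≤ R.value x (R.out i c)}

/-- The reduction gives the right answer to the question whether the graph has a clique with `k`
vertices, for all graphs. -/
def Reduction.Correct (R : Reduction n b m D v d q) (k : ℕ) : Prop :=
  ∀ x : Pair n → Bool, R.ev {i | Sat (R.formula x i)} ↔ ¬ (graph x).CliqueFree k

/-- The size: the number of gates plus the total number of inputs of the gates in `T`. -/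
def Reduction.size (R : Reduction n b m D v d q) : ℕ := R.s + ∑ i ∈ R.T, R.w i

/-- The product of the numbers `w i + 1` over the gates in `T`: it is `2 ^ t` if these are `t`
NOT gates. -/
def Reduction.freeProd (R : Reduction n b m D v d q) : ℕ := ∏ i ∈ R.T, (R.w i + 1)

/-- The clique problem, with the number `k` of the vertices of the clique as parameter, is reducible
to the problem `p-log-SAT(Γ_{1,d})`, for some `d`, by reductions of fpt size: for all large `n`, for
graphs with `n` vertices, the formulas have at most `g k * (log (f k * n ^ c) + 1)` variables, the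
size and the number of rows of the span gates and the program gates are at most `f k * n ^ c`, the
blocks of the program gates have at most `n ^ δ` variables, and the gates in `T` and the number `q` of
questions satisfy `(q + 1) * ∏ (w i + 1) ≤ n ^ γ`. -/
def FptReducible (b : ℕ) (δ γ : ℝ) : Prop :=
  ∃ (d c : ℕ) (f g : ℕ → ℕ), ∀ k : ℕ, ∀ᶠ n : ℕ in Filter.atTop,
    ∃ (m D v q : ℕ) (R : Reduction n b m D v d q),
    v ≤ g k * (Nat.log 2 (f k * n ^ c) + 1) ∧ R.size ≤ f k * n ^ c ∧ m ≤ f k * n ^ c ∧ (D : ℝ) ≤ (n : ℝ) ^ δ ∧
    (((q + 1) * R.freeProd : ℕ) : ℝ) ≤ (n : ℝ) ^ γ ∧ R.Correct k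

end Pool.Agent.R617.M1R
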