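import Pool.Agent.R617.M1R.Defs

set_option autoImplicit false

/-!
# The number of clauses, and logarithms (adapted from `Pool.Agent.H679R2.M1.Main`)
-/

namespace Pool.Agent.R617.M1R

open Filter Finset

theorem card_clause (v d : ℕ) : Fintype.card (Clause v d) ≤ (2 * v + 1) ^ d := by
  classical
  let F : (Fin d → Option (Fin v × Bool)) → Clause v d := fun f =>
    ⟨(univ.image f).eraseNone, by
      calc (univ.image f).eraseNone.card ≤ (univ.image f).card := by
            exact Finset.card_eraseNone_le _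
        _ ≤ (univ : Finset (Fin d)).card := Finset.card_image_le
        _ = d := by simp⟩
  have hF : Function.Surjective F := by
    rintro ⟨c, hc⟩
    have hle : c.card ≤ d := hc
    let e := c.equivFin
    refine ⟨fun i => if h : i.val < c.card then some (e.symm ⟨i.val, h⟩).1 else none, ?_⟩
    apply Subtype.ext
    ext l
    simp only [F, Finset.mem_eraseNone, mem_image, mem_univ, true_and]
    constructor
    · rintro ⟨i, hi⟩
      split_ifs at hi with h
      have := Option.some.inj hi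
      rw [← this]
      exact (e.symm ⟨i.val, h⟩).2
    · intro hl
      refine ⟨⟨(e ⟨l, hl⟩).val, lt_of_lt_of_le (e ⟨l, hl⟩).2 hle⟩, ?_⟩
      have h : (e ⟨l, hl⟩).val < c.card := (e ⟨l, hl⟩).2
      rw [dif_pos h]
      have h2 : e.symm ⟨(e ⟨l, hl⟩).val, h⟩ = ⟨l, hl⟩ := by
        have : (⟨(e ⟨l, hl⟩).val, h⟩ : Fin c.card) = e ⟨l, hl⟩ := rfl
        rw [this, Equiv.symm_apply_apply]
      rw [h2]
  calc Fintype.card (Clause v d) ≤ Fintype.card (Fin d → Option (Fin v × Bool)) :=
        Fintype.card_le_of_surjective F hF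
    _ = (2 * v + 1) ^ d := by
        rw [Fintype.card_fun, Fintype.card_option, Fintype.card_prod, Fintype.card_fin,
          Fintype.card_bool, Fintype.card_fin, Nat.mul_comm v 2]

/-- Logarithms are small. -/
theorem log_small (G F c d : ℕ) {δ : ℝ} (hδ : 0 < δ) :
    ∀ᶠ n : ℕ in atTop, (((2 * (G * (Nat.log 2 (F * n ^ c) + 1)) + 1) ^ d : ℕ) : ℝ) ≤
      (n : ℝ) ^ δ := by
  -- it is enough to bound the base by `n ^ ε` with `ε * d ≤ δ`
  set ε : ℝ := δ / (d + 1) with hε
  have hd : (0 : ℝ) < d + 1 := by positivity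
  have hεp : 0 < ε := by positivity
  have hlog : Tendsto (fun n : ℕ => Real.log (n : ℝ) / (n : ℝ) ^ ε) atTop (nhds 0) := by
    have h := (isLittleO_log_rpow_atTop hεp).tendsto_div_nhds_zero
    exact h.comp tendsto_natCast_atTop_atTop
  have hcst : Tendsto (fun n : ℕ => (1 : ℝ) / (n : ℝ) ^ ε) atTop (nhds 0) := by
    have h := (tendsto_rpow_atTop hεp).inv_tendsto_atTop
    have h2 := h.comp tendsto_natCast_atTop_atTop
    refine h2.congr fun n => ?_
    simp
  set A : ℝ := 2 * G * c / Real.log 2 with hA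
  set B : ℝ := 2 * G * (Real.log F / Real.log 2 + 1) + 1 with hB
  have hsum : Tendsto (fun n : ℕ => A * (Real.log (n : ℝ) / (n : ℝ) ^ ε) +
      B * (1 / (n : ℝ) ^ ε)) atTop (nhds 0) := by
    have := (hlog.const_mul A).add (hcst.const_mul B)
    simpa using this
  have hev := hsum.eventually (gt_mem_nhds (show (0 : ℝ) < 1 by norm_num))
  filter_upwards [hev, eventually_ge_atTop 1] with n hn hn1
  have hn0 : (0 : ℝ) < n := by exact_mod_cast hn1
  have hpos : 0 < (n : ℝ) ^ ε := Real.rpow_pos_of_pos hn0 _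
  have hl2 : 0 < Real.log 2 := Real.log_pos (by norm_num)
  have hbase : ((2 * (G * (Nat.log 2 (F * n ^ c) + 1)) + 1 : ℕ) : ℝ) ≤ (n : ℝ) ^ ε := by
    have hNat : (Nat.log 2 (F * n ^ c) : ℝ) ≤
        (Real.log F + c * Real.log n) / Real.log 2 := by
      rcases Nat.eq_zero_or_pos F with hF | hF
      · subst hF
        simp only [Nat.zero_mul, Nat.log_zero_right, Nat.cast_zero, Real.log_zero, zero_add]
        have : 0 ≤ Real.log (n : ℝ) := Real.log_nonneg (by exact_mod_cast hn1)
        positivity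
      · have hM : F * n ^ c ≠ 0 := by positivity
        have h1 : (2 : ℝ) ^ (Nat.log 2 (F * n ^ c)) ≤ ((F * n ^ c : ℕ) : ℝ) := by
          exact_mod_cast Nat.pow_log_le_self 2 hM
        have h2 : Real.log ((2 : ℝ) ^ (Nat.log 2 (F * n ^ c))) ≤
            Real.log ((F * n ^ c : ℕ) : ℝ) := Real.log_le_log (by positivity) h1
        rw [Real.log_pow] at h2
        have h3 : Real.log ((F * n ^ c : ℕ) : ℝ) = Real.log F + c * Real.log n := by
          push_cast
          rw [Real.log_mul (by positivity) (by positivity), Real.log_pow]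
        rw [h3] at h2
        rw [le_div_iff₀ hl2]
        exact h2
    have hkey : ((2 * (G * (Nat.log 2 (F * n ^ c) + 1)) + 1 : ℕ) : ℝ) ≤
        A * Real.log n + B := by
      push_cast
      have hG : (0 : ℝ) ≤ G := by positivity
      have : (2 : ℝ) * (G * ((Nat.log 2 (F * n ^ c) : ℝ) + 1)) + 1 ≤
          2 * (G * ((Real.log F + c * Real.log n) / Real.log 2 + 1)) + 1 := by gcongr
      refine this.trans (le_of_eq ?_)
      rw [hA, hB]
      field_simp
      ring
    refine hkey.trans ?_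
    have h4 : A * (Real.log (n : ℝ) / (n : ℝ) ^ ε) + B * (1 / (n : ℝ) ^ ε) =
        (A * Real.log n + B) / (n : ℝ) ^ ε := by ring
    rw [h4, div_lt_one hpos] at hn
    exact hn.le
  have hn1' : (1 : ℝ) ≤ (n : ℝ) := by exact_mod_cast hn1
  calc (((2 * (G * (Nat.log 2 (F * n ^ c) + 1)) + 1) ^ d : ℕ) : ℝ)
      = ((2 * (G * (Nat.log 2 (F * n ^ c) + 1)) + 1 : ℕ) : ℝ) ^ d := by push_cast; rfl
    _ ≤ ((n : ℝ) ^ ε) ^ d := by gcongr
    _ = (n : ℝ) ^ (ε * d) := by rw [← Real.rpow_natCast, ← Real.rpow_mul hn0.le]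
    _ ≤ (n : ℝ) ^ δ := by
        apply Real.rpow_le_rpow_of_exponent_le hn1'
        rw [hε, div_mul_eq_mul_div, div_le_iff₀ hd]
        nlinarith


end Pool.Agent.R617.M1R
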