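import Pool.Agent.R617.M1R.Main
import Pool.Agent.R617.M1R.Num

set_option autoImplicit false

/-!
# No reduction from the clique problem to short CNFs: the bounds
-/

namespace Pool.Agent.R617.M1R

open Finset Filter Pool.Agent.Y634

variable {n b m D v d q : ℕ}

theorem freeProd_pos (R : Reduction n b m D v d q) : 1 ≤ R.freeProd :=
  Finset.prod_pos fun _ _ => Nat.succ_pos _

theorem clause_pos (v d : ℕ) : 1 ≤ Fintype.card (Clause v d) :=
  Fintype.card_pos_iff.2 ⟨⟨∅, by simp⟩⟩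

/-- The quantitative bound. -/
theorem quant (ε : ℝ) (hε : 0 < ε) (hε1 : ε < 1) (b : ℕ) (hb : 2 ≤ b) (d k : ℕ)
    (hk : 8 * 10 ^ 15 * b ≤ ε * k) (G F c : ℕ) : ∀ᶠ n : ℕ in atTop, ∀ (m D v q : ℕ)
      (R : Reduction n b m D v d q), v ≤ G * (Nat.log 2 (F * n ^ c) + 1) →
      (R.size : ℝ) ≤ (n : ℝ) ^ (ε * k / (4 * 10 ^ 15 * b)) →
      (m : ℝ) ≤ (n : ℝ) ^ (ε * k / (4 * 10 ^ 15)) → (D : ℝ) ≤ (n : ℝ) ^ (ε / 126) →
      (((q + 1) * R.freeProd : ℕ) : ℝ) ≤ (n : ℝ) ^ (2 - ε) → ¬ R.Correct k := by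
  have hbR : (2 : ℝ) ≤ b := by exact_mod_cast hb
  have hb0 : (0 : ℝ) < b := by linarith
  have hkR : (0 : ℝ) ≤ k := Nat.cast_nonneg k
  have hk1 : 10 ^ 13 * b ≤ k := by
    have h1 : ε * k ≤ 1 * k := mul_le_mul_of_nonneg_right hε1.le hkR
    have h2 : (10 : ℝ) ^ 13 * b ≤ k := by nlinarith
    exact_mod_cast h2
  obtain ⟨n0, hn0⟩ := kclique_asymp (ε / 2) (by linarith) (by linarith) b k hb hk1
  filter_upwards [log_small G F c d (δ := ε / 2) (by linarith), eventually_ge_atTop n0,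
    eventually_ge_atTop 4] with n hlog hn hn4 m D v q R hv hsize hm hD hprod hR
  have hn1 : (1 : ℝ) ≤ n := by exact_mod_cast (by omega : 1 ≤ n)
  have hn4R : (4 : ℝ) ≤ n := by exact_mod_cast hn4
  have hnpos : (0 : ℝ) < n := by linarith
  have hC : ((Fintype.card (Clause v d) : ℕ) : ℝ) ≤ (n : ℝ) ^ (ε / 2) := by
    refine le_trans ?_ hlog
    have h1 : (2 * v + 1) ^ d ≤ (2 * (G * (Nat.log 2 (F * n ^ c) + 1)) + 1) ^ d :=
      Nat.pow_le_pow_left (by omega) _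
    exact_mod_cast (card_clause v d).trans h1
  have hfp := freeProd_pos R
  have hcl := clause_pos v d
  -- the number of questions
  have hq : (((q : ℕ) : ℝ) + 1) ≤ (n : ℝ) ^ (2 - ε) := by
    refine le_trans ?_ hprod
    have : q + 1 ≤ (q + 1) * R.freeProd := Nat.le_mul_of_pos_right _ hfp
    exact_mod_cast this
  have hexp : (2 : ℝ) ≤ ε * k / (4 * 10 ^ 15 * b) := by
    rw [le_div_iff₀ (by positivity)]
    nlinarith
  have hqC : ((q * Fintype.card (Clause v d) : ℕ) : ℝ) ≤ (n : ℝ) ^ (2 : ℝ) := by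
    push_cast
    calc (q : ℝ) * (Fintype.card (Clause v d) : ℝ) ≤ (n : ℝ) ^ (2 - ε) * (n : ℝ) ^ (ε / 2) :=
          mul_le_mul (by linarith) hC (Nat.cast_nonneg _) (by positivity)
      _ = (n : ℝ) ^ (2 - ε / 2) := by
          rw [← Real.rpow_add hnpos]
          congr 1
          ring
      _ ≤ (n : ℝ) ^ (2 : ℝ) := Real.rpow_le_rpow_of_exponent_le hn1 (by linarith)
  have hX : ((R.size + 1 + q * Fintype.card (Clause v d) : ℕ) : ℝ) ≤
      (n : ℝ) ^ (ε / 2 * k / (10 ^ 15 * b)) := by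
    obtain ⟨t, ht⟩ : ∃ t : ℝ, t = ε * k / (4 * 10 ^ 15 * b) := ⟨_, rfl⟩
    have e1 : ε / 2 * k / (10 ^ 15 * b) = t + t := by
      rw [ht]
      field_simp
      ring
    rw [← ht] at hexp hsize
    rw [e1, Real.rpow_add hnpos]
    have e2 : (n : ℝ) ^ (2 : ℝ) ≤ (n : ℝ) ^ t := Real.rpow_le_rpow_of_exponent_le hn1 hexp
    have e3 : (4 : ℝ) ≤ (n : ℝ) ^ t := by
      refine le_trans ?_ e2
      rw [Real.rpow_two]
      nlinarith
    have e4 := hqC.trans e2
    have e5 : (4 : ℝ) * (n : ℝ) ^ t ≤ (n : ℝ) ^ t * (n : ℝ) ^ t :=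
      mul_le_mul_of_nonneg_right e3 (by linarith)
    have e6 : ((R.size + 1 + q * Fintype.card (Clause v d) : ℕ) : ℝ) =
        (R.size : ℝ) + 1 + ((q * Fintype.card (Clause v d) : ℕ) : ℝ) := by push_cast; ring
    rw [e6]
    linarith
  have h := as_circuit R k hR (X := (n : ℝ) ^ (ε / 2 * k / (10 ^ 15 * b)))
    (Y := (n : ℝ) ^ (2 - ε / 2)) (δ := 1 / m) (fun s T wd a op θ val h1 h2 h3 h4 o τ h5 h6 =>
      hn0 n hn m D s T wd a op θ val ?_ ?_ h1 h2 h3 h4 o τ h5 h6) rfl hX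
  · -- the contradiction
    refine absurd h (not_lt.2 ?_)
    have e1 : (q * Fintype.card (Clause v d) + 1) * R.freeProd ≤
        (q + 1) * R.freeProd * Fintype.card (Clause v d) := by
      have : q * Fintype.card (Clause v d) + 1 ≤ (q + 1) * Fintype.card (Clause v d) := by
        rw [Nat.succ_mul]
        omega
      calc (q * Fintype.card (Clause v d) + 1) * R.freeProd ≤
            (q + 1) * Fintype.card (Clause v d) * R.freeProd := Nat.mul_le_mul_right _ this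
        _ = _ := by ring
    calc (((q * Fintype.card (Clause v d) + 1) * R.freeProd : ℕ) : ℝ) ≤
          (((q + 1) * R.freeProd * Fintype.card (Clause v d) : ℕ) : ℝ) := by exact_mod_cast e1
      _ = (((q + 1) * R.freeProd : ℕ) : ℝ) * (Fintype.card (Clause v d) : ℝ) := by push_cast; ring
      _ ≤ (n : ℝ) ^ (2 - ε) * (n : ℝ) ^ (ε / 2) :=
          mul_le_mul hprod hC (Nat.cast_nonneg _) (by positivity)
      _ = (n : ℝ) ^ (2 - ε / 2) := by
          rw [← Real.rpow_add hnpos]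
          congr 1
          ring
  · refine hm.trans (Real.rpow_le_rpow_of_exponent_le hn1 ?_)
    rw [div_le_div_iff₀ (by positivity) (by positivity)]
    have : 0 ≤ ε * k := by positivity
    nlinarith
  · refine hD.trans (Real.rpow_le_rpow_of_exponent_le hn1 ?_)
    linarith

/-- **No reductions of fpt size.** -/
theorem not_fpt (ε : ℝ) (hε : 0 < ε) (hε1 : ε < 1) (b : ℕ) (hb : 2 ≤ b) :
    ¬ FptReducible b (ε / 126) (2 - ε) := by
  rintro ⟨d, c, f, g, h⟩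
  have hb0 : (0 : ℝ) < b := by exact_mod_cast (by omega : 0 < b)
  obtain ⟨k, hk⟩ := exists_nat_ge ((8 * 10 ^ 15 * b + 4 * 10 ^ 15 * b * (c + 1)) / ε)
  rw [div_le_iff₀ hε] at hk
  have hk' : (8 * 10 ^ 15 * b + 4 * 10 ^ 15 * b * (c + 1)) ≤ ε * k := by linarith
  have hk1 : 8 * 10 ^ 15 * (b : ℝ) ≤ ε * k := by
    have : 0 ≤ 4 * 10 ^ 15 * (b : ℝ) * (c + 1) := by positivity
    linarith
  have hk2 : (c : ℝ) + 1 ≤ ε * k / (4 * 10 ^ 15 * b) := by
    rw [le_div_iff₀ (by positivity)]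
    have : 0 ≤ 8 * 10 ^ 15 * (b : ℝ) := by positivity
    linarith
  obtain ⟨n, ⟨m, D, v, q, R, h1, h2, h3, h4, h5, h6⟩, h7, hn⟩ :=
    ((h k).and ((quant ε hε hε1 b hb d k hk1 (g k) (f k) c).and
      (eventually_ge_atTop (f k + 1)))).exists
  have hn1 : 1 ≤ n := by omega
  have hn1R : (1 : ℝ) ≤ n := by exact_mod_cast hn1
  have hsm : ∀ t : ℕ, t ≤ f k * n ^ c → (t : ℝ) ≤ (n : ℝ) ^ (ε * k / (4 * 10 ^ 15 * b)) := by
    intro t ht
    have e1 : f k * n ^ c ≤ n ^ (c + 1) := by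
      calc f k * n ^ c ≤ n * n ^ c := Nat.mul_le_mul_right _ (by omega)
        _ = n ^ (c + 1) := by rw [pow_succ, Nat.mul_comm]
    calc (t : ℝ) ≤ ((n ^ (c + 1) : ℕ) : ℝ) := by exact_mod_cast ht.trans e1
      _ = (n : ℝ) ^ ((c : ℝ) + 1) := by
          push_cast
          rw [← Real.rpow_natCast]
          push_cast
          rfl
      _ ≤ _ := Real.rpow_le_rpow_of_exponent_le hn1R hk2
  refine h7 m D v q R h1 (hsm _ h2) ?_ h4 h5 h6
  refine (hsm _ h3).trans (Real.rpow_le_rpow_of_exponent_le hn1R ?_)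
  have hb1 : (1 : ℝ) ≤ b := by exact_mod_cast (by omega : 1 ≤ b)
  apply div_le_div_of_nonneg_left (by positivity) (by positivity)
  nlinarith

end Pool.Agent.R617.M1R
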