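import Pool.Agent.Y634.KClique
import Pool.Agent.R617.M1R.Defs

set_option autoImplicit false

/-!
# Reductions from the clique problem to short CNFs, computed with strong monotone gates
-/

namespace Pool.Agent.R617.M1R

open Finset Pool.Agent.Y634

variable {n b m D v d q : ℕ}

theorem graph_eq (x : Pair n → Bool) : Pool.Agent.W969.MC.grf x = graph x := by
  ext a c
  simp only [Pool.Agent.W969.MC.grf, graph, SimpleGraph.fromRel_adj]
  constructor
  · rintro ⟨h, hx⟩
    exact ⟨h, Or.inl ⟨h, hx⟩⟩
  · rintro ⟨h, ⟨h1, hx⟩ | ⟨h1, hx⟩⟩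
    · exact ⟨h, hx⟩
    · refine ⟨h, ?_⟩
      have e : (⟨{c, a}, Finset.card_pair h1⟩ : Pair n) = ⟨{a, c}, Finset.card_pair h⟩ :=
        Subtype.ext (Finset.pair_comm c a)
      rwa [← e]

/-- A gate: the number of its inputs, its inputs, its function, and its thresholds. -/
structure Gt (n s : ℕ) where
  w : ℕ
  a : Fin w → Pair n ⊕ Fin s
  op : (Fin w → ℝ) → ℝ
  θ : Fin w → ℝ

/-- The old gate, in the larger circuit. -/
def old (R : Reduction n b m D v d q) (i : Fin R.s) : Gt n (R.s + 1) where
  w := R.w i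
  a := fun j => Sum.map id Fin.castSucc (R.a i j)
  op := R.op i
  θ := R.θ i

open Classical in
/-- The new gate, which evaluates the formulas. -/
noncomputable def new (R : Reduction n b m D v d q) {W : ℕ} (e : Fin q × Clause v d ≃ Fin W) :
    Gt n (R.s + 1) where
  w := W
  a := fun j => Sum.map id Fin.castSucc (R.out (e.symm j).1 (e.symm j).2)
  op := fun z => if R.ev {i | Sat {c : Clause v d | R.τ i c ≤ z (e (i, c))}} then 1 else 0
  θ := fun j => R.τ (e.symm j).1 (e.symm j).2

/-- All gates. -/
noncomputable def gt (R : Reduction n b m D v d q) {W : ℕ} (e : Fin q × Clause v d ≃ Fin W)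
    (i : Fin (R.s + 1)) : Gt n (R.s + 1) :=
  Fin.lastCases (motive := fun _ => Gt n (R.s + 1)) (new R e) (fun i => old R i) i

theorem gt_last (R : Reduction n b m D v d q) {W : ℕ} (e : Fin q × Clause v d ≃ Fin W) :
    gt R e (Fin.last R.s) = new R e := by
  unfold gt
  rw [Fin.lastCases_last]

theorem gt_old (R : Reduction n b m D v d q) {W : ℕ} (e : Fin q × Clause v d ≃ Fin W)
    (i : Fin R.s) : gt R e i.castSucc = old R i := by
  unfold gt
  rw [Fin.lastCases_castSucc]

open Classical in
/-- The values. -/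
noncomputable def vl (R : Reduction n b m D v d q) (x : Pair n → Bool) (i : Fin (R.s + 1)) : ℝ :=
  Fin.lastCases (motive := fun _ => ℝ) (if R.ev {i | Sat (R.formula x i)} then (1 : ℝ) else 0)
    (fun i => R.val x i) i

open Classical in
theorem vl_last (R : Reduction n b m D v d q) (x : Pair n → Bool) :
    vl R x (Fin.last R.s) = if R.ev {i | Sat (R.formula x i)} then (1 : ℝ) else 0 := by
  unfold vl
  rw [Fin.lastCases_last]

theorem vl_old (R : Reduction n b m D v d q) (x : Pair n → Bool) (i : Fin R.s) :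
    vl R x i.castSucc = R.val x i := by
  unfold vl
  rw [Fin.lastCases_castSucc]

theorem wire_map (R : Reduction n b m D v d q) (x : Pair n → Bool) (u : Pair n ⊕ Fin R.s) :
    Sum.elim (Pool.Agent.H560R2.bit x) (vl R x) (Sum.map id Fin.castSucc u) = R.value x u := by
  rcases u with u | u
  · rfl
  · exact vl_old R x u

/-- The reduction, with a last gate that evaluates the formulas, as a circuit for the clique
problem. -/
theorem as_circuit (R : Reduction n b m D v d q) (k : ℕ) (hR : R.Correct k)
    {X Y : ℝ} {δ : ℝ} (hk : ∀ (s : ℕ) (T : Finset (Fin s)) (wd : Fin s → ℕ)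
      (a : ∀ i, Fin (wd i) → {e : Finset (Fin n) // e.card = 2} ⊕ Fin s)
      (op : ∀ i, (Fin (wd i) → ℝ) → ℝ) (θ : ∀ i, Fin (wd i) → ℝ)
      (val : ({e : Finset (Fin n) // e.card = 2} → Bool) → Fin s → ℝ),
      (∀ i j k, a i j = Sum.inr k → k < i) → (∀ i ∉ T, GQ b m m D δ (wd i) (op i)) →
      (∀ i ∈ T, ∀ z z' : Fin (wd i) → ℝ, (∀ j, θ i j ≤ z j ↔ θ i j ≤ z' j) →
        op i z = op i z') →
      (∀ x i, val x i = op i (fun j => Sum.elim (Pool.Agent.H560R2.bit x) (val x) (a i j))) →
      ∀ (o : Fin s) (τ : ℝ), (∀ x, τ ≤ val x o ↔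
        ¬ (Pool.Agent.W969.MC.grf x).CliqueFree k) →
      ((s + ∑ i ∈ T, wd i : ℕ) : ℝ) ≤ X →
      Y < ((∏ i ∈ T, (wd i + 1) : ℕ) : ℝ)) (hδ : δ = 1 / m)
    (hX : ((R.size + 1 + q * Fintype.card (Clause v d) : ℕ) : ℝ) ≤ X) :
    Y < (((q * Fintype.card (Clause v d) + 1) * R.freeProd : ℕ) : ℝ) := by
  classical
  subst hδ
  obtain ⟨W, hW⟩ : ∃ W : ℕ, W = q * Fintype.card (Clause v d) := ⟨_, rfl⟩
  rw [← hW] at hX ⊢
  have e : Fin q × Clause v d ≃ Fin W := Fintype.equivFinOfCardEq (by
    rw [Fintype.card_prod, Fintype.card_fin, hW])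
  have hnot : Fin.last R.s ∉ R.T.map Fin.castSuccEmb := by
    intro h
    obtain ⟨i, _, hi⟩ := Finset.mem_map.1 h
    exact (Fin.castSucc_lt_last i).ne hi
  have hsum : ∀ f : ℕ → ℕ, ∑ i ∈ insert (Fin.last R.s) (R.T.map Fin.castSuccEmb),
      f (gt R e i).w = f W + ∑ i ∈ R.T, f (R.w i) := by
    intro f
    rw [Finset.sum_insert hnot, Finset.sum_map, gt_last]
    congr 1
    exact Finset.sum_congr rfl fun i _ => by
      show f (gt R e i.castSucc).w = f (R.w i)
      rw [gt_old]
      rfl
  have hprod : ∏ i ∈ insert (Fin.last R.s) (R.T.map Fin.castSuccEmb),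
      ((gt R e i).w + 1) = (W + 1) * ∏ i ∈ R.T, (R.w i + 1) := by
    rw [Finset.prod_insert hnot, Finset.prod_map, gt_last]
    congr 1
    exact Finset.prod_congr rfl fun i _ => by
      show (gt R e i.castSucc).w + 1 = R.w i + 1
      rw [gt_old]
      rfl
  have h := hk (R.s + 1) (insert (Fin.last R.s) (R.T.map Fin.castSuccEmb)) (fun i => (gt R e i).w)
    (fun i => (gt R e i).a) (fun i => (gt R e i).op) (fun i => (gt R e i).θ) (vl R)
    ?_ ?_ ?_ ?_ (Fin.last R.s) 1 ?_ ?_
  · rw [hprod] at h
    exact h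
  · -- the order of the gates
    have key : ∀ (s : ℕ) (u : Pair n ⊕ Fin s) (g : Fin (s + 1)) (l : Fin (s + 1)),
        (∀ k, u = Sum.inr k → k.castSucc < g) → Sum.map id Fin.castSucc u = Sum.inr l → l < g := by
      intro s u g l h1 h2
      rcases u with u | u
      · exact absurd h2 (by simp)
      · have h3 : u.castSucc = l := Sum.inr_injective h2
        rw [← h3]
        exact h1 u rfl
    intro i
    induction i using Fin.lastCases with
    | last =>
      rw [gt_last]
      intro j l h2
      exact key R.s _ _ l (fun k _ => Fin.castSucc_lt_last k) h2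
    | cast i =>
      rw [gt_old]
      intro j l h2
      exact key R.s _ _ l (fun k hk => Fin.castSucc_lt_castSucc_iff.2 (R.earlier i j k hk)) h2
  · -- monotone gates
    intro i
    induction i using Fin.lastCases with
    | last =>
      intro hi
      exact absurd (Finset.mem_insert_self _ _) hi
    | cast i =>
      intro hi
      rw [gt_old]
      refine R.mono i fun hiT => hi ?_
      exact Finset.mem_insert_of_mem (Finset.mem_map.2 ⟨i, hiT, rfl⟩)
  · -- free gates
    intro i
    induction i using Fin.lastCases with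
    | last =>
      intro _
      rw [gt_last]
      intro z z' hz
      have h1 : ∀ (i : Fin q) (c : Clause v d), R.τ i c ≤ z (e (i, c)) ↔
          R.τ i c ≤ z' (e (i, c)) := by
        intro i c
        have h2 := hz (e (i, c))
        have h3 : (new R e).θ (e (i, c)) = R.τ i c := by
          show R.τ (e.symm (e (i, c))).1 (e.symm (e (i, c))).2 = _
          rw [e.symm_apply_apply]
        rw [h3] at h2
        exact h2
      show (if R.ev {i | Sat {c : Clause v d | R.τ i c ≤ z (e (i, c))}} then (1 : ℝ) else 0) =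
        if R.ev {i | Sat {c : Clause v d | R.τ i c ≤ z' (e (i, c))}} then (1 : ℝ) else 0
      simp only [h1]
    | cast i =>
      intro hi
      rw [gt_old]
      refine R.free i ?_
      rcases Finset.mem_insert.1 hi with h1 | h1
      · exact absurd h1 (Fin.castSucc_lt_last i).ne
      · obtain ⟨j, hj, hji⟩ := Finset.mem_map.1 h1
        have : j = i := Fin.castSucc_injective _ hji
        rwa [← this]
  · -- the values
    intro x i
    induction i using Fin.lastCases with
    | last =>
      rw [gt_last, vl_last]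
      show _ = if R.ev {i | Sat {c : Clause v d | R.τ i c ≤ Sum.elim (Pool.Agent.H560R2.bit x)
        (vl R x) (Sum.map id Fin.castSucc (R.out (e.symm (e (i, c))).1 (e.symm (e (i, c))).2))}}
        then (1 : ℝ) else 0
      simp only [e.symm_apply_apply, wire_map]
      rfl
    | cast i =>
      rw [gt_old, vl_old]
      show _ = R.op i (fun j => Sum.elim (Pool.Agent.H560R2.bit x) (vl R x)
        (Sum.map id Fin.castSucc (R.a i j)))
      simp only [wire_map]
      exact R.spec x i
  · -- the answer
    intro x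
    rw [vl_last, graph_eq, ← hR x]
    split_ifs with h1
    · exact ⟨fun _ => h1, fun _ => le_rfl⟩
    · exact ⟨fun h2 => absurd h2 (by norm_num), fun h2 => absurd h2 h1⟩
  · -- the size
    refine le_trans (le_of_eq ?_) hX
    rw [hsum fun t => t]
    unfold Reduction.size
    push_cast
    ring

end Pool.Agent.R617.M1R
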